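import Mathlib

set_option autoImplicit false

namespace Pool.Agent.Results.MP_319fd9_nt.Aperiodic

/-- The residues mod 245 all of whose members belong to the set. -/
def P : List ℕ := [2, 6, 13, 18, 27, 38, 39, 49, 60, 69, 81, 85, 86, 100, 114, 128, 131, 148,
  159, 164, 176, 192, 196, 206, 207, 222, 232, 239, 243]

/-- Quotients used in the residue class 35. -/
def C1 (q : ℕ) : Prop := q = 0 ∨ ∃ i : ℕ, 4 * 8 ^ i ≤ q ∧ q < 8 * 8 ^ i
/-- Quotients used in the residue class 70. -/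
def C2 (q : ℕ) : Prop := ∃ i : ℕ, 2 * 8 ^ i ≤ q + 1 ∧ q + 1 ≤ 4 * 8 ^ i
/-- Quotients used in the residue class 140. -/
def C4 (q : ℕ) : Prop := ∃ i : ℕ, 8 ^ i ≤ q + 1 ∧ q + 1 ≤ 2 * 8 ^ i

/-- The aperiodic complete sum-free set. -/
def S (x : ℕ) : Prop :=
  x % 245 ∈ P ∨ (x % 245 = 35 ∧ C1 (x / 245)) ∨ (x % 245 = 70 ∧ C2 (x / 245)) ∨
    (x % 245 = 140 ∧ C4 (x / 245))

lemma pow_pos8 (i : ℕ) : 1 ≤ 8 ^ i := Nat.one_le_pow _ _ (by norm_num)

lemma pow_cmp (i l : ℕ) : 8 ^ l ≤ 8 ^ i ∨ 8 * 8 ^ i ≤ 8 ^ l := by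
  rcases Nat.lt_or_ge i l with h | h
  · right
    calc 8 * 8 ^ i = 8 ^ (i + 1) := by ring
      _ ≤ 8 ^ l := Nat.pow_le_pow_right (by norm_num) h
  · left
    exact Nat.pow_le_pow_right (by norm_num) h

lemma bracket (n : ℕ) (hn : 1 ≤ n) : ∃ i : ℕ, 8 ^ i ≤ n ∧ n < 8 * 8 ^ i := by
  refine ⟨Nat.log 8 n, Nat.pow_log_le_self 8 (by omega), ?_⟩
  have := Nat.lt_pow_succ_log_self (b := 8) (by norm_num) n
  calc n < 8 ^ (Nat.log 8 n + 1) := this
    _ = 8 * 8 ^ (Nat.log 8 n) := by ring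

lemma C1_add (a b : ℕ) (ha : C1 a) (hb : C1 b) : ¬ C2 (a + b) := by
  rintro ⟨l, h1, h2⟩
  rcases ha with ha | ⟨i, ha1, ha2⟩ <;> rcases hb with hb | ⟨j, hb1, hb2⟩
  · have := pow_pos8 l
    omega
  · have := pow_pos8 l
    have := pow_pos8 j
    have := pow_cmp j l
    omega
  · have := pow_pos8 l
    have := pow_pos8 i
    have := pow_cmp i l
    omega
  · have := pow_pos8 l
    have := pow_pos8 i
    have := pow_pos8 j
    have := pow_cmp i l
    have := pow_cmp j l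
    have := pow_cmp i j
    have := pow_cmp j i
    omega

lemma C2_add (a b : ℕ) (ha : C2 a) (hb : C2 b) : ¬ C4 (a + b) := by
  rintro ⟨l, h1, h2⟩
  obtain ⟨i, ha1, ha2⟩ := ha
  obtain ⟨j, hb1, hb2⟩ := hb
  have := pow_pos8 l
  have := pow_pos8 i
  have := pow_pos8 j
  have := pow_cmp i l
  have := pow_cmp j l
  have := pow_cmp i j
  have := pow_cmp j i
  omega

lemma C4_add (a b : ℕ) (ha : C4 a) (hb : C4 b) : ¬ C1 (a + b + 1) := by
  rintro (h0 | ⟨l, h1, h2⟩)
  · omega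
  obtain ⟨i, ha1, ha2⟩ := ha
  obtain ⟨j, hb1, hb2⟩ := hb
  have := pow_pos8 l
  have := pow_pos8 i
  have := pow_pos8 j
  have := pow_cmp l i
  have := pow_cmp l j
  have := pow_cmp i j
  have := pow_cmp j i
  omega

lemma C2_cover (n : ℕ) (h : ¬ C2 n) : ∃ a b, C1 a ∧ C1 b ∧ a + b = n := by
  rcases Nat.eq_zero_or_pos n with h0 | h0
  · exact ⟨0, 0, Or.inl rfl, Or.inl rfl, by omega⟩
  obtain ⟨i, hi1, hi2⟩ := bracket ((n + 1) / 2) (by omega)
  have hn : 4 * 8 ^ i < n + 1 := by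
    by_contra hc
    exact h ⟨i, by omega, by omega⟩
  rcases Nat.lt_or_ge n (8 * 8 ^ i) with h1 | h1
  · exact ⟨n, 0, Or.inr ⟨i, by omega, by omega⟩, Or.inl rfl, by omega⟩
  · exact ⟨n / 2, n - n / 2, Or.inr ⟨i, by omega, by omega⟩, Or.inr ⟨i, by omega, by omega⟩,
      by omega⟩

lemma C4_cover (n : ℕ) (h : ¬ C4 n) : ∃ a b, C2 a ∧ C2 b ∧ a + b = n := by
  obtain ⟨i, hi1, hi2⟩ := bracket (n + 1) (by omega)
  have hp := pow_pos8 i
  have hn : 2 * 8 ^ i < n + 1 := by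
    by_contra hc
    exact h ⟨i, by omega, by omega⟩
  rcases Nat.lt_or_ge (4 * 8 ^ i) n with h1 | h1
  · exact ⟨n / 2, n - n / 2, ⟨i, by omega, by omega⟩, ⟨i, by omega, by omega⟩, by omega⟩
  · exact ⟨1, n - 1, ⟨0, by norm_num, by norm_num⟩, ⟨i, by omega, by omega⟩, by omega⟩

lemma C1_cover (n : ℕ) (h : ¬ C1 (n + 1)) : ∃ a b, C4 a ∧ C4 b ∧ a + b = n := by
  obtain ⟨i, hi1, hi2⟩ := bracket (n + 1) (by omega)
  have hp := pow_pos8 i
  have hn : n + 1 < 4 * 8 ^ i := by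
    by_contra hc
    exact h (Or.inr ⟨i, by omega, by omega⟩)
  rcases Nat.lt_or_ge n (2 * 8 ^ i) with h1 | h1
  · exact ⟨n, 0, ⟨i, by omega, by omega⟩, ⟨0, by norm_num, by norm_num⟩, by omega⟩
  · exact ⟨n / 2, n - n / 2, ⟨i, by omega, by omega⟩, ⟨i, by omega, by omega⟩, by omega⟩

/-- All residues meeting the set. -/
def R : List ℕ := 35 :: 70 :: 140 :: P

lemma S_res {x : ℕ} (h : S x) : x % 245 ∈ R := by
  unfold R
  rcases h with h | ⟨h, _⟩ | ⟨h, _⟩ | ⟨h, _⟩
  · simp [h]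
  · simp [h]
  · simp [h]
  · simp [h]

lemma res_check : ∀ r ∈ R, ∀ s ∈ R, (r + s) % 245 ∉ P ∧
    ((r + s) % 245 = 35 → r = 140 ∧ s = 140) ∧
    ((r + s) % 245 = 70 → r = 35 ∧ s = 35) ∧
    ((r + s) % 245 = 140 → r = 70 ∧ s = 70) := by
  decide +kernel

lemma notP : 35 ∉ P ∧ 70 ∉ P ∧ 140 ∉ P := by decide

lemma S35 {x : ℕ} (hx : x % 245 = 35) : S x ↔ C1 (x / 245) := by
  unfold S
  rw [hx]
  have := notP
  constructor
  · rintro (h | ⟨_, h⟩ | ⟨h, _⟩ | ⟨h, _⟩)
    · exact absurd h this.1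
    · exact h
    · omega
    · omega
  · intro h
    exact Or.inr (Or.inl ⟨rfl, h⟩)

lemma S70 {x : ℕ} (hx : x % 245 = 70) : S x ↔ C2 (x / 245) := by
  unfold S
  rw [hx]
  have := notP
  constructor
  · rintro (h | ⟨h, _⟩ | ⟨_, h⟩ | ⟨h, _⟩)
    · exact absurd h this.2.1
    · omega
    · exact h
    · omega
  · intro h
    exact Or.inr (Or.inr (Or.inl ⟨rfl, h⟩))

lemma S140 {x : ℕ} (hx : x % 245 = 140) : S x ↔ C4 (x / 245) := by
  unfold S
  rw [hx]
  have := notP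
  constructor
  · rintro (h | ⟨h, _⟩ | ⟨h, _⟩ | ⟨_, h⟩)
    · exact absurd h this.2.2
    · omega
    · omega
    · exact h
  · intro h
    exact Or.inr (Or.inr (Or.inr ⟨rfl, h⟩))

/-- The set is sum-free. -/
lemma sum_free {x y : ℕ} (hx : S x) (hy : S y) : ¬ S (x + y) := by
  intro hxy
  obtain ⟨c0, c1, c2, c4⟩ := res_check _ (S_res hx) _ (S_res hy)
  have hmod : (x % 245 + y % 245) % 245 = (x + y) % 245 := by omega
  rw [hmod] at c0 c1 c2 c4
  have hxy' := hxy
  rcases hxy' with h | ⟨h, hC⟩ | ⟨h, hC⟩ | ⟨h, hC⟩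
  · exact c0 h
  · obtain ⟨h1, h2⟩ := c1 h
    have hx' := (S140 h1).1 hx
    have hy' := (S140 h2).1 hy
    have hd : (x + y) / 245 = x / 245 + y / 245 + 1 := by omega
    rw [hd] at hC
    exact C4_add _ _ hx' hy' hC
  · obtain ⟨h1, h2⟩ := c2 h
    have hx' := (S35 h1).1 hx
    have hy' := (S35 h2).1 hy
    have hd : (x + y) / 245 = x / 245 + y / 245 := by omega
    rw [hd] at hC
    exact C1_add _ _ hx' hy' hC
  · obtain ⟨h1, h2⟩ := c4 h
    have hx' := (S70 h1).1 hx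
    have hy' := (S70 h2).1 hy
    have hd : (x + y) / 245 = x / 245 + y / 245 := by omega
    rw [hd] at hC
    exact C2_add _ _ hx' hy' hC

/-- Small members of the set used for covering the empty classes. -/
def E : List ℕ := 35 :: 140 :: 315 :: P

lemma E_check : ∀ s ∈ E, s ≤ 315 := by decide

lemma E_mem {s : ℕ} (hs : s ∈ E) : S s := by
  unfold E at hs
  rw [List.mem_cons, List.mem_cons, List.mem_cons] at hs
  rcases hs with h | h | h | h
  · subst h
    exact (S35 (by norm_num)).2 (Or.inl (by norm_num))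
  · subst h
    exact (S140 (by norm_num)).2 ⟨0, by norm_num, by norm_num⟩
  · subst h
    exact (S70 (by norm_num)).2 ⟨0, by norm_num, by norm_num⟩
  · left
    have h1 : ∀ s ∈ P, s % 245 = s := by decide
    rw [h1 s h]
    exact h

lemma cover_check : ∀ r < 245, r ∈ R ∨ ∃ s ∈ E, (r + 490 - s) % 245 ∈ P := by
  decide +kernel

/-- Every large nonmember is a sum of two members. -/
lemma cover {x : ℕ} (hx : 560 ≤ x) (h : ¬ S x) : ∃ s t, S s ∧ S t ∧ s + t = x := by
  rcases cover_check (x % 245) (Nat.mod_lt _ (by norm_num)) with hr | ⟨s, hs, hs'⟩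
  · unfold R at hr
    rw [List.mem_cons, List.mem_cons, List.mem_cons] at hr
    rcases hr with hr | hr | hr | hr
    · -- class 35
      have hc : ¬ C1 (x / 245) := fun hc => h ((S35 hr).2 hc)
      obtain ⟨n, hn⟩ : ∃ n, x / 245 = n + 1 := ⟨x / 245 - 1, by omega⟩
      rw [hn] at hc
      obtain ⟨a, b, ha, hb, hab⟩ := C1_cover n hc
      refine ⟨245 * a + 140, 245 * b + 140, (S140 (by omega)).2 ?_, (S140 (by omega)).2 ?_, by omega⟩
      · have : (245 * a + 140) / 245 = a := by omega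
        rw [this]; exact ha
      · have : (245 * b + 140) / 245 = b := by omega
        rw [this]; exact hb
    · have hc : ¬ C2 (x / 245) := fun hc => h ((S70 hr).2 hc)
      obtain ⟨a, b, ha, hb, hab⟩ := C2_cover _ hc
      refine ⟨245 * a + 35, 245 * b + 35, (S35 (by omega)).2 ?_, (S35 (by omega)).2 ?_, by omega⟩
      · have : (245 * a + 35) / 245 = a := by omega
        rw [this]; exact ha
      · have : (245 * b + 35) / 245 = b := by omega
        rw [this]; exact hb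
    · have hc : ¬ C4 (x / 245) := fun hc => h ((S140 hr).2 hc)
      obtain ⟨a, b, ha, hb, hab⟩ := C4_cover _ hc
      refine ⟨245 * a + 70, 245 * b + 70, (S70 (by omega)).2 ?_, (S70 (by omega)).2 ?_, by omega⟩
      · have : (245 * a + 70) / 245 = a := by omega
        rw [this]; exact ha
      · have : (245 * b + 70) / 245 = b := by omega
        rw [this]; exact hb
    · exact absurd (Or.inl hr) h
  · have h1 := E_check s hs
    refine ⟨s, x - s, E_mem hs, Or.inl ?_, by omega⟩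
    have h2 : (x - s) % 245 = (x % 245 + 490 - s) % 245 := by omega
    rw [h2]
    exact hs'

lemma S_pos {x : ℕ} (h : S x) : 0 < x := by
  rcases Nat.eq_zero_or_pos x with h0 | h0
  · subst h0
    exfalso
    have := S_res h
    revert this
    decide
  · exact h0

/-- There is a complete sum-free set of positive integers that is not eventually periodic. -/
theorem result :
    ∃ T : Set ℕ,
      (∀ s ∈ T, 0 < s) ∧
      (∀ s ∈ T, ∀ t ∈ T, s + t ∉ T) ∧
      (∃ N : ℕ, ∀ n : ℕ, N ≤ n → (n ∈ T ∨ ∃ s ∈ T, ∃ t ∈ T, s + t = n)) ∧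
      ¬ ∃ m : ℕ, 0 < m ∧ ∃ N : ℕ, ∀ n : ℕ, N ≤ n → (n ∈ T ↔ n + m ∈ T) := by
  refine ⟨{x | S x}, fun s hs => S_pos hs, fun s hs t ht => sum_free hs ht, ⟨560, ?_⟩, ?_⟩
  · intro n hn
    by_cases h : S n
    · exact Or.inl h
    · obtain ⟨s, t, hs, ht, hst⟩ := cover hn h
      exact Or.inr ⟨s, hs, t, ht, hst⟩
  · rintro ⟨D, hDpos, N, hN⟩
    have hstep : ∀ j n, N ≤ n → (S n ↔ S (n + j * D)) := by
      intro j
      induction j with
      | zero => intro n _; simp
      | succ j ih =>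
        intro n hn
        have h1 : S (n + j * D) ↔ S (n + j * D + D) :=
          hN (n + j * D) (le_trans hn (Nat.le_add_right _ _))
        have e : n + (j + 1) * D = n + j * D + D := by ring
        rw [e, ← h1]
        exact ih n hn
    set i := D + N with hi
    have hlt : i < 8 ^ i := Nat.lt_pow_self (by norm_num)
    have hx : S (245 * (8 * 8 ^ i - 1) + 35) := by
      apply (S35 (by omega)).2
      have : (245 * (8 * 8 ^ i - 1) + 35) / 245 = 8 * 8 ^ i - 1 := by omega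
      rw [this]
      exact Or.inr ⟨i, by omega, by omega⟩
    have hS2 := (hstep 245 _ (by omega)).1 hx
    have hS3 := (S35 (by omega)).1 hS2
    have e : (245 * (8 * 8 ^ i - 1) + 35 + 245 * D) / 245 = 8 * 8 ^ i - 1 + D := by omega
    rw [e] at hS3
    rcases hS3 with h0 | ⟨l, hl1, hl2⟩
    · omega
    · have := pow_cmp i l
      have := pow_pos8 l
      omega

end Pool.Agent.Results.MP_319fd9_nt.Aperiodic
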